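import Pool.Agent.Helper45.Stmt.ConvHB
import Pool.Agent.Helper45.HB.Main

/-!
Compact Kähler manifolds with a holomorphic map `σ` from the tangent bundle to a Hermitian vector bundle
whose curvature is nonpositive along `σ`, such that `K_X + |σ|²` is positive, have semiample canonical
bundle. (`g = |σ|²`, and `σ` and the bundle are only given locally.)
-/

open scoped Manifold ContDiff
open Pool.Agent.Helper10.Stmt Pool.Agent.Helper45.Stmt

namespace Pool.Agent.Results.MP_97d78d_ag.BundleSeminegative

theorem result {n m : ℕ} {X : Type*} [TopologicalSpace X] [T2Space X] [CompactSpace X]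
    [ConnectedSpace X] [ChartedSpace (Fin n → ℂ) X] [IsManifold 𝓘(ℂ, Fin n → ℂ) ω X]
    {h : X → Matrix (Fin n) (Fin n) ℂ} (hh : KahlerMetric n X h)
    {g : X → Matrix (Fin n) (Fin n) ℂ} (hg : SeminegAlong n m X g)
    {v : X → ℝ} (hv : CanMetric n X v) (hpos : CurvAddPos n X v g) : CanSemiample n X :=
  can_of_hb Pool.Agent.Helper45.HB.Asm.t_MAINH hh hg hv hpos

end Pool.Agent.Results.MP_97d78d_ag.BundleSeminegative
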