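import Pool.Agent.Helper96.RKF.Conv
import Pool.Agent.Helper96.RKF.Asm
import Pool.Agent.Helper10.RK.Asm

/-!
Compact Kähler manifolds whose canonical bundle has a smooth Hermitian metric with semipositive
curvature of constant rank `n - k` have semiample canonical bundle, if the leaves of the kernel of the
curvature are nonpositively curved for the metrics induced by some metric of the manifold.
-/

open scoped Manifold ContDiff
open Pool.Agent.Helper10.Stmt Pool.Agent.Helper96.Stmt

namespace Pool.Agent.Results.MP_97d78d_ag.ConstantRankLeaves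

theorem result {n k : ℕ} (hk : 0 < k) (hn : k < n) {X : Type*} [TopologicalSpace X] [T2Space X]
    [CompactSpace X] [ConnectedSpace X] [ChartedSpace (Fin n → ℂ) X]
    [IsManifold 𝓘(ℂ, Fin n → ℂ) ω X] {h : X → Matrix (Fin n) (Fin n) ℂ} (hh : KahlerMetric n X h)
    {v : X → ℝ} (hv : CanMetric n X v) (hr : SemiposCorank n k X v)
    {g : X → Matrix (Fin n) (Fin n) ℂ} (hg : LeafNonpos n X g v) : CanSemiample n X :=
  Pool.Agent.Helper96.RKF.can_of_orb fun _ _ _ hact hinv hvinv =>
    Pool.Agent.Helper96.RKF.orb_semiampleL Pool.Agent.Helper96.RKF.Asm.t_FRONTL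
      Pool.Agent.Helper10.RK.Asm.tH_MAINRK hk hn hact hh (hinv h) hv (hvinv v) hr hg (hinv g)

end Pool.Agent.Results.MP_97d78d_ag.ConstantRankLeaves
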