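import Pool.Agent.Helper45.Stmt.ConvFM
import Pool.Agent.Helper18.FM.Main

/-!
Compact Kähler manifolds with a semidefinite Hermitian form which is locally pulled back, by holomorphic maps,
from Hermitian metrics whose real bisectional curvature is bounded along the map by a semipositive curvature
form `θ` of the canonical bundle, and whose sum with `θ` is positive, have semiample canonical bundle.
-/

open scoped Manifold ContDiff
open Pool.Agent.Helper10.Stmt Pool.Agent.Helper45.Stmt

namespace Pool.Agent.Results.MP_97d78d_ag.PullbackRBC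

theorem result {n m : ℕ} {X : Type*} [TopologicalSpace X] [T2Space X] [CompactSpace X]
    [ConnectedSpace X] [ChartedSpace (Fin n → ℂ) X] [IsManifold 𝓘(ℂ, Fin n → ℂ) ω X]
    {h : X → Matrix (Fin n) (Fin n) ℂ} (hh : KahlerMetric n X h)
    {v : X → ℝ} (hv : CanMetric n X v) {c : ℝ} (hc : 0 ≤ c) (hsemi : CurvSemipos n X v c)
    {g : X → Matrix (Fin n) (Fin n) ℂ} (hpos : CurvAddPos n X v g)
    (hg : PullRBC n m X g v c) : CanSemiample n X :=
  can_of_fm Pool.Agent.Helper18.FM.t_MAINF hh hv hc hsemi hpos hg

end Pool.Agent.Results.MP_97d78d_ag.PullbackRBC
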