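import Pool.Agent.Helper10.Stmt.Conv
import Pool.Agent.Helper10.SP.Asm

/-!
Compact Kähler manifolds whose canonical bundle has a smooth Hermitian metric with semipositive
curvature of constant rank `n - 1` have semiample canonical bundle.
-/

open scoped Manifold ContDiff
open Pool.Agent.Helper10.Stmt

namespace Pool.Agent.Results.MP_97d78d_ag.SemipositiveCorankOne

theorem result {n : ℕ} (hn : 2 ≤ n) {X : Type*} [TopologicalSpace X] [T2Space X] [CompactSpace X]
    [ConnectedSpace X] [ChartedSpace (Fin n → ℂ) X] [IsManifold 𝓘(ℂ, Fin n → ℂ) ω X]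
    {h : X → Matrix (Fin n) (Fin n) ℂ} (hh : KahlerMetric n X h)
    {v : X → ℝ} (hv : CanMetric n X v) (hr : SemiposCorankOne n X v) : CanSemiample n X :=
  semi_iff.2 (Pool.Agent.Helper10.SP.can_of_main Pool.Agent.Helper10.SP.Asm.t_MAINSP hn
    (kahler_iff.1 hh) (can_iff.1 hv) (corank_iff.1 hr))

end Pool.Agent.Results.MP_97d78d_ag.SemipositiveCorankOne
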